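import Pool.Agent.Q252.ZU5

/-!
# Odd zeta values and combinations of arbitrary real numbers with algebraic coefficients

Let `2^(132 (e + 1) (t + 1)) (b + 1)² K³ log (K + 1) ≤ s²`. For all large `H`, all real number fields `F` of degree at
most `e + 1` and all real numbers `v_1, …, v_t` at least `K` of the odd zeta values `ζ(j)`, `b < j ≤ s`, have distance at
least `H^(-C)` from all numbers `α_0 + α_1 v_1 + ⋯ + α_t v_t` with `α_l ∈ F` of height at most `H`. The exponent `C` and
the threshold for `H` depend neither on the field nor on the numbers `v_l`.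

With `v_l = π^l` these are the values at `π` of polynomials of degree at most `t` with algebraic coefficients of degree
at most `e + 1`; with `v_l = θ^(l-1) / Q` they are the values of rational functions of an arbitrary real number `θ`
with an arbitrary common denominator `Q`.

The proof is in `Pool/Agent/Q252/ZU1.lean` to `ZU5.lean`; it rests on the simultaneous approximation theorem
`Pool/Agent/Y926/TW/Main.lean` of the starting files.
-/

namespace Pool.Agent.Results.MP_a89d6d_nt.AlgebraicCombinations

open Polynomial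

/-- the real number `x` is a root of a nonzero integer polynomial with all coefficients at most `H` in absolute value -/
def HeightLE (H : ℕ) (x : ℝ) : Prop :=
  ∃ P : ℤ[X], P ≠ 0 ∧ (∀ i, |P.coeff i| ≤ (H : ℤ)) ∧ aeval x P = 0

/-- **Odd zeta values are not simultaneously close to combinations of `t` arbitrary real numbers with coefficients in a
number field of bounded degree.** -/
theorem result (b K s e t : ℕ) (hK : 1 ≤ K)
    (hs : (2 : ℝ) ^ (132 * ((e + 1) * (t + 1))) * ((b : ℝ) + 1) ^ 2 * (K : ℝ) ^ 3 * Real.log (K + 1) ≤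
      (s : ℝ) ^ 2) :
    ∃ C H0 : ℕ, ∀ H : ℕ, H0 ≤ H → ∀ F : IntermediateField ℚ ℝ, FiniteDimensional ℚ F →
      Module.finrank ℚ F ≤ e + 1 → ∀ v : Fin t → ℝ, K ≤ Set.ncard {j : ℕ | b < j ∧ j ≤ s ∧ Odd j ∧
        ∀ (α₀ : ℝ) (α : Fin t → ℝ), α₀ ∈ F → (∀ l, α l ∈ F) → HeightLE H α₀ → (∀ l, HeightLE H (α l)) →
          1 / (H : ℝ) ^ C ≤ |(∑' n : ℕ, 1 / ((n : ℝ) + 1) ^ j) - α₀ - ∑ l, α l * v l|} :=
  Pool.Agent.Q252.ZU.main_lin b K s e t hK hs

end Pool.Agent.Results.MP_a89d6d_nt.AlgebraicCombinations
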