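import Mathlib
import Pool.Agent.Q203.LQ.Fin

/-!
# A measure of linear independence for `1, π ^ 2, ζ(3)` with an explicit exponent

The starting files prove such a measure with an unspecified exponent
(`Pool/Agent/Results/MP_a89d6d_nt/MeasurePiSquaredZetaThree.lean`). Here the exponent is `85`. New against
that proof (files `Pool/Agent/Q203/LQ/`):

* on a line through the origin the determinant `DD n α β` of size `14 n` is a polynomial of degree at most
  `7 n` (`Deg`), so by p-adic interpolation a common denominator `d` costs only `d ^ (7 n)` (`Loc`); together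
  with the size of `β` the cost is `max (|b|, |d|) ^ (7 n)`;
* primes `p` between `n` and `3 n` that divide `d` are free once (`PW`), and the parameter `n` is the largest
  prime `n ≤ 1.566 log H` that does not divide `d` (`Fin`, with `Pool/Agent/Q203/ZM/Sel.lean`);
* the archimedean bound persists up to distance `exp (- 54.26 n)`; for this the potential of the nodes is
  bounded on the poles by a kernel-checked certificate (`Pot`, `Arch`).
-/

set_option autoImplicit false

namespace Pool.Agent.Results.MP_a89d6d_nt.LinearMeasureExponent85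

/-- the measure for `1, π ^ 2, ζ(3)`, coefficient of `ζ(3)` nonzero, in a convenient form -/
theorem base : ∃ c : ℝ, 0 < c ∧ ∀ a b d : ℤ, ∀ H : ℝ, 1 ≤ H → d ≠ 0 →
    |(b : ℝ)| ≤ H → |(d : ℝ)| ≤ H →
    c / H ^ 85 ≤ |(a : ℝ) + b * Real.pi ^ 2 + d * (∑' n : ℕ, 1 / ((n : ℝ) + 1) ^ 3)| := by
  obtain ⟨c, hc, h⟩ := Pool.Agent.Q203.LQ.measure
  refine ⟨c / 6 ^ 85, by positivity, ?_⟩
  intro a b d H hH hd hb hdH
  have h1 := h a (6 * b) d (6 * H) (by linarith) hd (by
    push_cast
    rw [abs_mul, abs_of_pos (by norm_num : (0 : ℝ) < 6)]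
    linarith) (by linarith)
  have e2 : Pool.Agent.H337R2.zr 2 = Real.pi ^ 2 / 6 := Pool.Agent.LZ.Z2_value
  have e3 : Pool.Agent.H337R2.zr 3 = ∑' n : ℕ, 1 / ((n : ℝ) + 1) ^ 3 := rfl
  rw [e2, e3] at h1
  rw [mul_pow] at h1
  have e4 : (a : ℝ) + ((6 * b : ℤ) : ℝ) * (Real.pi ^ 2 / 6) + d * (∑' n : ℕ, 1 / ((n : ℝ) + 1) ^ 3) =
      (a : ℝ) + b * Real.pi ^ 2 + d * (∑' n : ℕ, 1 / ((n : ℝ) + 1) ^ 3) := by
    push_cast
    ring
  rw [e4] at h1
  rw [div_div]
  exact h1

/-- **An explicit measure of linear independence for `1, π ^ 2, ζ(3)`.**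
(1) There is `c > 0` such that for all integers `a, b, d` with `d ≠ 0`
    `|a + b π ^ 2 + d ζ(3)| ≥ c / max (|b|, |d|) ^ 85`;
(2) for every rational `s` there is `c > 0` with `|ζ(3) + s π ^ 2 - p / q| ≥ c / q ^ 86` for all
    integers `p` and `q > 0`: the irrationality exponent of `ζ(3) + s π ^ 2` is at most `86`;
(3) for every rational `r` there is `c > 0` with `|(ζ(3) + r) / π ^ 2 - p / q| ≥ c / q ^ 86` for all
    integers `p` and `q > 0`: the irrationality exponent of `(ζ(3) + r) / π ^ 2` is at most `86`. -/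
theorem result :
    (∃ c : ℝ, 0 < c ∧ ∀ a b d : ℤ, d ≠ 0 →
      c / (max |(b : ℝ)| |(d : ℝ)|) ^ 85 ≤
        |(a : ℝ) + b * Real.pi ^ 2 + d * (∑' n : ℕ, 1 / ((n : ℝ) + 1) ^ 3)|) ∧
    (∀ s : ℚ, ∃ c : ℝ, 0 < c ∧ ∀ p q : ℤ, 0 < q →
      c / (q : ℝ) ^ 86 ≤ |(∑' n : ℕ, 1 / ((n : ℝ) + 1) ^ 3) + s * Real.pi ^ 2 - p / q|) ∧
    (∀ r : ℚ, ∃ c : ℝ, 0 < c ∧ ∀ p q : ℤ, 0 < q →
      c / (q : ℝ) ^ 86 ≤ |((∑' n : ℕ, 1 / ((n : ℝ) + 1) ^ 3) + r) / Real.pi ^ 2 - p / q|) := by
  obtain ⟨c, hc, h⟩ := base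
  set z : ℝ := ∑' n : ℕ, 1 / ((n : ℝ) + 1) ^ 3 with hz
  have hpi : (0 : ℝ) < Real.pi ^ 2 := by positivity
  refine ⟨?_, ?_, ?_⟩
  · refine ⟨c, hc, fun a b d hd => ?_⟩
    have hd1 : (1 : ℝ) ≤ |(d : ℝ)| := by
      have : (1 : ℤ) ≤ |d| := Int.one_le_abs hd
      exact_mod_cast this
    have hH1 : (1 : ℝ) ≤ max |(b : ℝ)| |(d : ℝ)| := hd1.trans (le_max_right _ _)
    exact h a b d _ hH1 hd (le_max_left _ _) (le_max_right _ _)
  · intro s
    set K : ℝ := max (s.den : ℝ) |(s.num : ℝ)| with hK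
    have hden : (0 : ℝ) < s.den := by exact_mod_cast s.pos
    have hden1 : (1 : ℝ) ≤ s.den := by exact_mod_cast s.pos
    have hK1 : 1 ≤ K := hden1.trans (le_max_left _ _)
    have hK0 : 0 < K := by linarith
    refine ⟨c / K ^ 85 / s.den, by positivity, ?_⟩
    intro p q hq
    have hq0 : (0 : ℝ) < q := by exact_mod_cast hq
    have hq1 : (1 : ℝ) ≤ q := by exact_mod_cast (by omega : (1 : ℤ) ≤ q)
    have hdq : ((s.den : ℤ) * q) ≠ 0 := mul_ne_zero (by exact_mod_cast s.pos.ne') hq.ne'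
    have h1 := h (-(s.den * p)) (s.num * q) (s.den * q) (K * q)
      (by nlinarith) hdq
      (by push_cast; rw [abs_mul, abs_of_pos hq0]
          exact mul_le_mul_of_nonneg_right (le_max_right _ _) hq0.le)
      (by push_cast; rw [abs_mul, abs_of_pos hden, abs_of_pos hq0]
          exact mul_le_mul_of_nonneg_right (le_max_left _ _) hq0.le)
    have hsr : (s : ℝ) = s.num / s.den := by exact_mod_cast (Rat.num_div_den s).symm
    have e1 : z + s * Real.pi ^ 2 - p / q =
        (((-(s.den * p) : ℤ) : ℝ) + ((s.num * q : ℤ) : ℝ) * Real.pi ^ 2 +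
          ((s.den * q : ℤ) : ℝ) * z) / (s.den * q) := by
      rw [hsr]
      push_cast
      field_simp
      ring
    rw [e1, abs_div, abs_of_pos (mul_pos hden hq0), le_div_iff₀ (mul_pos hden hq0)]
    refine le_trans (le_of_eq ?_) h1
    rw [mul_pow]
    field_simp
  · intro r
    set X : ℝ := |(z + r) / Real.pi ^ 2| + 1 with hX
    have hX1 : 1 ≤ X := by
      have := abs_nonneg ((z + r) / Real.pi ^ 2)
      linarith
    have hX0 : 0 < X := by linarith
    have hden : (0 : ℝ) < r.den := by exact_mod_cast r.pos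
    have hden1 : (1 : ℝ) ≤ r.den := by exact_mod_cast r.pos
    set K : ℝ := r.den * X with hK
    have hK1 : 1 ≤ K := by nlinarith
    have hK0 : 0 < K := by linarith
    refine ⟨min 1 (c / K ^ 85 / (r.den * Real.pi ^ 2)), by positivity, ?_⟩
    intro p q hq
    have hq0 : (0 : ℝ) < q := by exact_mod_cast hq
    have hq1 : (1 : ℝ) ≤ q := by exact_mod_cast (by omega : (1 : ℤ) ≤ q)
    have hqk : (1 : ℝ) ≤ (q : ℝ) ^ 86 := one_le_pow₀ hq1
    have hrr : (r : ℝ) = r.num / r.den := by exact_mod_cast (Rat.num_div_den r).symm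
    by_cases hpq : |(p : ℝ)| ≤ X * q
    · have hdq : ((r.den : ℤ) * q) ≠ 0 := mul_ne_zero (by exact_mod_cast r.pos.ne') hq.ne'
      have h1 := h (r.num * q) (-(r.den * p)) (r.den * q) (K * q)
        (by nlinarith) hdq
        (by push_cast; rw [abs_neg, abs_mul, abs_of_pos hden, hK, mul_assoc]
            exact mul_le_mul_of_nonneg_left hpq hden.le)
        (by push_cast; rw [abs_mul, abs_of_pos hden, abs_of_pos hq0, hK]
            have : (r.den : ℝ) * 1 ≤ r.den * X := mul_le_mul_of_nonneg_left hX1 hden.le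
            nlinarith)
      have e1 : (z + r) / Real.pi ^ 2 - p / q =
          (((r.num * q : ℤ) : ℝ) + ((-(r.den * p) : ℤ) : ℝ) * Real.pi ^ 2 +
            ((r.den * q : ℤ) : ℝ) * z) / (r.den * Real.pi ^ 2 * q) := by
        rw [hrr]
        push_cast
        field_simp
        ring
      have hD : 0 < (r.den : ℝ) * Real.pi ^ 2 * q := by positivity
      rw [e1, abs_div, abs_of_pos hD, le_div_iff₀ hD]
      refine le_trans ?_ h1
      have h2 : min 1 (c / K ^ 85 / (r.den * Real.pi ^ 2)) ≤ c / K ^ 85 / (r.den * Real.pi ^ 2) :=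
        min_le_right _ _
      calc min 1 (c / K ^ 85 / (r.den * Real.pi ^ 2)) / (q : ℝ) ^ 86 * (r.den * Real.pi ^ 2 * q)
          ≤ c / K ^ 85 / (r.den * Real.pi ^ 2) / (q : ℝ) ^ 86 * (r.den * Real.pi ^ 2 * q) := by
            apply mul_le_mul_of_nonneg_right _ hD.le
            exact div_le_div_of_nonneg_right h2 (by positivity)
        _ = c / (K * q) ^ 85 := by
            rw [mul_pow]
            field_simp
            rw [hK, mul_pow]
    · push Not at hpq
      have h2 : X < |(p : ℝ) / q| := by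
        rw [abs_div, abs_of_pos hq0, lt_div_iff₀ hq0]
        exact hpq
      have h3 : (1 : ℝ) ≤ |(z + r) / Real.pi ^ 2 - p / q| := by
        have h4 := abs_sub_abs_le_abs_sub ((p : ℝ) / q) ((z + r) / Real.pi ^ 2)
        rw [abs_sub_comm] at h4
        linarith
      refine le_trans ?_ h3
      refine (div_le_self (by positivity) hqk).trans (min_le_left _ _)

end Pool.Agent.Results.MP_a89d6d_nt.LinearMeasureExponent85
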