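import Mathlib
import Pool.Agent.Q147.GQ.Count
import Pool.Agent.Q147.GQ.Norm
import Pool.Agent.H340R2.LW
import Pool.Agent.Y926.TW.Dist

/-!
# The rational combinations of odd zeta values which are related to `π` in bounded degree

Algebraic independence of `π, ζ(3), ζ(5), ...` says in particular that `π` and a combination
`y = ∑ c_j ζ(j)`, `c ≠ 0` integral, satisfy no polynomial relation. We consider the relations of total
degree at most `D` over `ℚ`.

(1) Let `x` be any transcendental number (for instance `π`). In every rational space `V ⊆ ℂ` of finite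
dimension the numbers `y` which satisfy such a relation with `x` form a *finite union of rational
subspaces* `U`, and `dim (U + ℚ + ℚ x) ≤ 2 D`. Equality holds for the spaces `U = F + F x`, `F` a
number field of degree `D`.

(2) Let `J` be the set of the odd integers `j` with `b < j ≤ s`. The integral vectors `c ∈ ℤ^J` for
which `∑ c_j ζ(j)` and `x` satisfy such a relation form a *finite union of subgroups* of `ℤ^J`, and the
rank of each of them is at most `|J| + 2 D - t`, if `2 ^ (132 t) (b + 1) ^ 2 ≤ s ^ 2`. So for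
`s ≥ 2 ^ (66 (2 D + 1)) (b + 1)` they have infinite index.

(3) For every `m` there is `C` such that for all `T` at most `C (2 T + 1) ^ (|J| + 2 m D - t)` of the
`(2 T + 1) ^ |J|` vectors `c` with `|c_j| ≤ T` satisfy, for some number field `F` of degree at most
`m`, a relation of total degree at most `D` with coefficients in `F` between `x` and `∑ c_j ζ(j)`.

The proof of (1). For the places of the field of algebraic functions of `x`, the values of
`∑ t_i v_i` and of its conjugates are constant for `t` outside finitely many subspaces; with Gauss'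
lemma and an induction one gets the finite union of subspaces. Let all elements of `U ∋ x` be
related to `x`, let `L = ℚ(U)` and let `κ` be the field of the algebraic numbers in `L`, `f` its degree.
If `y ∈ U` is generic then `L = ℚ(x, y)` has degree at most `D` over `ℚ(y)`, hence `x` has degree at
most `a = ⌊D / f⌋` over `ℚ̄(y)`; so the space `ℚ̄ U` has dimension at most `a + 1` (its elements have
norms of degree at most `a` in `x`, up to a common denominator), and `U` lies in a space over `κ` of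
this dimension, as `ℚ̄` and `L` are linearly disjoint over `κ`; and `f (a + 1) ≤ 2 D`.
(2) follows with the theorem of the starting library on the odd zeta values outside rational spaces.
-/

set_option autoImplicit false

namespace Pool.Agent.Results.MP_a89d6d_nt.PiAndCombinations

open Module

/-- The numbers `x` and `y` satisfy a nonzero polynomial relation of total degree at most `D` with
coefficients in `F`. -/
def Related (F : Type) [Field F] [Algebra F ℂ] (D : ℕ) (x y : ℂ) : Prop :=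
  ∃ P : MvPolynomial (Fin 2) F, P ≠ 0 ∧ P.totalDegree ≤ D ∧ MvPolynomial.aeval ![x, y] P = 0

/-- The numbers `x` and `y` satisfy a nonzero polynomial relation of total degree at most `D` over
some number field of degree at most `m`. -/
def RelatedOver (m D : ℕ) (x y : ℂ) : Prop :=
  ∃ F : IntermediateField ℚ ℂ, FiniteDimensional ℚ F ∧ finrank ℚ F ≤ m ∧ Related F D x y

/-- The odd integers `j` with `b < j ≤ s`. -/
def odds (b s : ℕ) : Finset ℕ := (Finset.Ioc b s).filter fun j => Odd j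

/-- The number `ζ(j) = 1 + 1/2^j + 1/3^j + ⋯`. -/
noncomputable def zetaValue (j : ℕ) : ℝ := ∑' n : ℕ, 1 / ((n : ℝ) + 1) ^ j

/-- The number `∑ c_j ζ(j)`. -/
noncomputable def combination {b s : ℕ} (c : odds b s → ℤ) : ℂ :=
  ∑ j : odds b s, (c j : ℂ) * (zetaValue j : ℂ)

open Pool.Agent.Q147.GQ

theorem related_iff (D : ℕ) (x y : ℂ) :
    Related ℚ D x y ↔ RelQ (k := ℚ) (fun _ : Fin 1 => x) D y := by
  have h1 : ∀ a b : ℂ, (Fin.cons a (fun _ : Fin 1 => b) : Fin 2 → ℂ) = ![a, b] := by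
    intro a b
    funext i
    fin_cases i <;> rfl
  have h2 : ∀ a b : ℂ, Related ℚ D a b ↔ RelQ (k := ℚ) (fun _ : Fin 1 => b) D a := by
    intro a b
    rw [relQ_iff, h1]
    rfl
  rw [h2]
  exact ⟨fun h => h.symm', fun h => h.symm'⟩

/-- the dimension of the space generated by odd zeta values -/
theorem dim_zeta {b s t : ℕ} (h : (2 : ℝ) ^ (132 * t) * ((b : ℝ) + 1) ^ 2 ≤ (s : ℝ) ^ 2) :
    t ≤ finrank ℚ (Submodule.span ℚ
      (Set.range fun j : odds b s => ((zetaValue j : ℝ) : ℂ))) := by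
  classical
  let V : Submodule ℚ ℝ := Submodule.span ℚ (Set.range fun j : odds b s => zetaValue j)
  have hVfd : FiniteDimensional ℚ V := FiniteDimensional.span_of_finite ℚ (Set.finite_range _)
  let ψ : ℝ →ₗ[ℚ] ℂ := (Algebra.linearMap ℝ ℂ).restrictScalars ℚ
  have hψ : Function.Injective ψ := Complex.ofReal_injective
  have hmap : Submodule.span ℚ (Set.range fun j : odds b s => ((zetaValue j : ℝ) : ℂ)) =
      V.map ψ := by
    rw [Submodule.map_span, ← Set.range_comp]
    rfl
  rw [hmap, ← LinearEquiv.finrank_eq (Submodule.equivMapOfInjective ψ hψ V)]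
  by_contra hlt
  push Not at hlt
  obtain ⟨D, rfl⟩ : ∃ D, t = D + 1 := ⟨t - 1, by omega⟩
  have h1 := Pool.Agent.Y926.TW.window_space (b := b) (K := 1) (D := D) (s := s) le_rfl (by
    have h2 : Real.log ((1 : ℕ) + 1) ≤ 1 := by
      have h3 : ((1 : ℕ) : ℝ) + 1 = 2 := by norm_num
      rw [h3]
      linarith [Real.log_two_lt_d9]
    have h4 : (0 : ℝ) ≤ (2 : ℝ) ^ (132 * (D + 1)) * ((b : ℝ) + 1) ^ 2 := by positivity
    calc (2 : ℝ) ^ (132 * (D + 1)) * ((b : ℝ) + 1) ^ 2 * ((1 : ℕ) : ℝ) ^ 3 *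
          Real.log ((1 : ℕ) + 1)
        = (2 : ℝ) ^ (132 * (D + 1)) * ((b : ℝ) + 1) ^ 2 * Real.log ((1 : ℕ) + 1) := by
          push_cast
          ring
      _ ≤ (2 : ℝ) ^ (132 * (D + 1)) * ((b : ℝ) + 1) ^ 2 * 1 :=
          mul_le_mul_of_nonneg_left h2 h4
      _ ≤ (s : ℝ) ^ 2 := by
          rw [mul_one]
          exact h) V hVfd (by omega)
  have h5 : {j : ℕ | b < j ∧ j ≤ s ∧ Odd j ∧
      ∀ r : ℚ, (∑' n : ℕ, 1 / ((n : ℝ) + 1) ^ j) - r ∉ V} = ∅ := by
    rw [Set.eq_empty_iff_forall_notMem]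
    rintro j ⟨hb, hs, hodd, hr⟩
    apply hr 0
    have hj : j ∈ odds b s := Finset.mem_filter.2 ⟨Finset.mem_Ioc.2 ⟨hb, hs⟩, hodd⟩
    rw [Rat.cast_zero, sub_zero]
    exact Submodule.subset_span ⟨⟨j, hj⟩, rfl⟩
  rw [h5, Set.ncard_empty] at h1
  omega

/-- the combination as a linear combination over the rational numbers -/
theorem combination_eq {b s : ℕ} (c : odds b s → ℤ) :
    combination c = ∑ j : odds b s, ((c j : ℤ) : ℚ) • ((zetaValue j : ℝ) : ℂ) := by
  rw [combination]
  refine Finset.sum_congr rfl fun j _ => ?_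
  rw [Rat.smul_def]
  push_cast
  rfl

/-- the exceptional vectors -/
theorem vectors {x : ℂ} (hx : Transcendental ℚ x) (D b s t : ℕ)
    (h : (2 : ℝ) ^ (132 * t) * ((b : ℝ) + 1) ^ 2 ≤ (s : ℝ) ^ 2) :
    ∃ HH : Set (AddSubgroup (odds b s → ℤ)), HH.Finite ∧
      (∀ c : odds b s → ℤ, Related ℚ D x (combination c) ↔ ∃ H ∈ HH, c ∈ H) ∧
      ∀ H ∈ HH, ∀ (r : ℕ) (v : Fin r → (odds b s → ℤ)), (∀ i, v i ∈ H) →
        LinearIndependent ℤ v → r + t ≤ (odds b s).card + 2 * D := by
  classical
  let z : odds b s → ℂ := fun j => ((zetaValue j : ℝ) : ℂ)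
  let V : Submodule ℚ ℂ := Submodule.span ℚ (Set.range z)
  have hVfd : FiniteDimensional ℚ V := FiniteDimensional.span_of_finite ℚ (Set.finite_range _)
  obtain ⟨UU, hUf, hUU, hUd⟩ := structure_thm (k := ℚ) hx D V
  let E : (odds b s → ℤ) →+ ℂ :=
    { toFun := combination
      map_zero' := by simp [combination]
      map_add' := fun c d => by
        simp only [combination, Pi.add_apply, Int.cast_add, add_mul, Finset.sum_add_distrib] }
  have hEV : ∀ c, E c ∈ V := by
    intro c
    change combination c ∈ V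
    rw [combination_eq]
    exact Submodule.sum_mem _ fun j _ => V.smul_mem _ (Submodule.subset_span ⟨j, rfl⟩)
  refine ⟨(fun U : Submodule ℚ ℂ =>
    (U ⊔ Submodule.span ℚ {1, x} : Submodule ℚ ℂ).toAddSubgroup.comap E) '' UU,
    hUf.image _, fun c => ?_, ?_⟩
  · rw [related_iff]
    constructor
    · intro hr
      obtain ⟨U, hU, hcU⟩ := (hUU _).1 ⟨hEV c, hr⟩
      exact ⟨_, ⟨U, hU, rfl⟩, Submodule.mem_sup_left (show E c ∈ U from hcU)⟩
    · rintro ⟨_, ⟨U, hU, rfl⟩, hcU⟩
      exact (hUd U hU).2.1 _ hcU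
  · rintro _ ⟨U, hU, rfl⟩ r v hv hli
    obtain ⟨hfd, -, hdim⟩ := hUd U hU
    have h1 := rank_preimage z (U ⊔ Submodule.span ℚ {1, x}) v hli (fun i => by
      have h2 : combination (v i) ∈ (U ⊔ Submodule.span ℚ {1, x} : Submodule ℚ ℂ) := hv i
      rwa [combination_eq] at h2)
    have h3 := dim_zeta h
    have h4 : Fintype.card (odds b s) = (odds b s).card := Fintype.card_coe _
    rw [h4] at h1
    have h5 : finrank ℚ (Submodule.span ℚ (Set.range z)) = finrank ℚ (Submodule.span ℚ
      (Set.range fun j : odds b s => ((zetaValue j : ℝ) : ℂ))) := rfl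
    omega

/-- the spaces `F + F x` -/
theorem sharp {x : ℂ} (hx : Transcendental ℚ x) (F : IntermediateField ℚ ℂ)
    (hF : FiniteDimensional ℚ F) :
    ∃ U : Submodule ℚ ℂ, 1 ∈ U ∧ x ∈ U ∧ finrank ℚ U = 2 * finrank ℚ F ∧
      ∀ y ∈ U, Related ℚ (finrank ℚ F) x y := by
  classical
  let Φ : (F × F) →ₗ[ℚ] ℂ := F.val.toLinearMap.coprod
    ((LinearMap.mulRight ℚ x).comp F.val.toLinearMap)
  have hΦ : ∀ p : F × F, Φ p = (p.1 : ℂ) + p.2 * x := fun p => rfl
  have hinj : Function.Injective Φ := by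
    rw [injective_iff_map_eq_zero]
    rintro ⟨α, β⟩ h
    rw [hΦ] at h
    have hβ : β = 0 := by
      by_contra hne
      apply hx
      have hne' : (β : ℂ) ≠ 0 := fun h0 => hne (Subtype.ext h0)
      have e : x = ((-α / β : F) : ℂ) := by
        have : (β : ℂ) * x = -α := by linear_combination h
        push_cast
        field_simp
        linear_combination h
      rw [e]
      have h1 : IsAlgebraic ℚ (-α / β : F) := Algebra.IsAlgebraic.isAlgebraic _
      exact h1.algebraMap (A := ℂ)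
    subst hβ
    have hα : (α : ℂ) = 0 := by simpa using h
    exact Prod.ext (Subtype.ext hα) rfl
  refine ⟨LinearMap.range Φ, ⟨(1, 0), by rw [hΦ]; simp⟩, ⟨(0, 1), by rw [hΦ]; simp⟩, ?_, ?_⟩
  · rw [LinearMap.finrank_range_of_inj hinj, finrank_prod]
    ring
  · rintro _ ⟨⟨α, β⟩, rfl⟩
    rw [hΦ]
    let f : MvPolynomial (Fin 2) F :=
      MvPolynomial.X 1 - MvPolynomial.C α - MvPolynomial.C β * MvPolynomial.X 0
    have hf0 : f ≠ 0 := by
      intro h
      have h1 := congrArg (MvPolynomial.coeff (Finsupp.single (1 : Fin 2) 1)) h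
      simp only [f, MvPolynomial.coeff_sub, MvPolynomial.coeff_C_mul, MvPolynomial.coeff_C,
        MvPolynomial.coeff_zero, MvPolynomial.coeff_X] at h1
      have h2 : ¬ ((0 : Fin 2 →₀ ℕ) = Finsupp.single (1 : Fin 2) 1) := by
        intro h
        have := DFunLike.congr_fun h 1
        simp at this
      have h3 : ¬ (Finsupp.single (0 : Fin 2) 1 = (Finsupp.single (1 : Fin 2) 1 : Fin 2 →₀ ℕ)) := by
        intro h
        have := DFunLike.congr_fun h 1
        simp at this
      simp [h2, h3] at h1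
    have hfd : f.totalDegree ≤ 1 := by
      refine (MvPolynomial.totalDegree_sub _ _).trans (max_le ?_ ?_)
      · refine (MvPolynomial.totalDegree_sub _ _).trans (max_le ?_ ?_)
        · rw [MvPolynomial.totalDegree_X]
        · rw [MvPolynomial.totalDegree_C]
          exact Nat.zero_le _
      · refine (MvPolynomial.totalDegree_mul _ _).trans ?_
        rw [MvPolynomial.totalDegree_C, MvPolynomial.totalDegree_X]
    obtain ⟨g, hg0, hgd, hg⟩ := exists_rat_relation F ![x, (α : ℂ) + β * x] f hf0 (by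
      simp only [f, map_sub, map_mul, MvPolynomial.aeval_X, MvPolynomial.aeval_C]
      simp)
    refine ⟨g, hg0, hgd.trans ?_, hg⟩
    calc finrank ℚ F * f.totalDegree ≤ finrank ℚ F * 1 := Nat.mul_le_mul_left _ hfd
      _ = finrank ℚ F := mul_one _

/-- **Main result.** -/
theorem result :
    -- (1) rational spaces
    (∀ x : ℂ, Transcendental ℚ x → ∀ (D : ℕ) (V : Submodule ℚ ℂ), FiniteDimensional ℚ V →
      ∃ UU : Set (Submodule ℚ ℂ), UU.Finite ∧
        (∀ y, (y ∈ V ∧ Related ℚ D x y) ↔ ∃ U ∈ UU, y ∈ U) ∧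
        ∀ U ∈ UU, finrank ℚ (U ⊔ Submodule.span ℚ {1, x} : Submodule ℚ ℂ) ≤ 2 * D) ∧
    -- the bound `2 D` is attained
    (∀ x : ℂ, Transcendental ℚ x → ∀ F : IntermediateField ℚ ℂ, FiniteDimensional ℚ F →
      ∃ U : Submodule ℚ ℂ, 1 ∈ U ∧ x ∈ U ∧ finrank ℚ U = 2 * finrank ℚ F ∧
        ∀ y ∈ U, Related ℚ (finrank ℚ F) x y) ∧
    -- (2) odd zeta values
    (∀ x : ℂ, Transcendental ℚ x → ∀ D b s t : ℕ,
      (2 : ℝ) ^ (132 * t) * ((b : ℝ) + 1) ^ 2 ≤ (s : ℝ) ^ 2 →
      ∃ HH : Set (AddSubgroup (odds b s → ℤ)), HH.Finite ∧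
        (∀ c : odds b s → ℤ, Related ℚ D x (combination c) ↔ ∃ H ∈ HH, c ∈ H) ∧
        ∀ H ∈ HH, ∀ (r : ℕ) (v : Fin r → (odds b s → ℤ)), (∀ i, v i ∈ H) →
          LinearIndependent ℤ v → r + t ≤ (odds b s).card + 2 * D) ∧
    -- (3) counting, number fields
    (∀ x : ℂ, Transcendental ℚ x → ∀ m D b s t : ℕ,
      (2 : ℝ) ^ (132 * t) * ((b : ℝ) + 1) ^ 2 ≤ (s : ℝ) ^ 2 →
      ∃ C : ℕ, ∀ T : ℕ,
        {c : odds b s → ℤ | (∀ j, |c j| ≤ T) ∧ RelatedOver m D x (combination c)}.Finite ∧
        {c : odds b s → ℤ | (∀ j, |c j| ≤ T) ∧ RelatedOver m D x (combination c)}.ncard ≤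
          C * (2 * T + 1) ^ ((odds b s).card + 2 * (m * D) - t)) ∧
    -- (4) the number `π`
    Transcendental ℚ ((Real.pi : ℝ) : ℂ) := by
  refine ⟨fun x hx D V hV => ?_, fun x hx F hF => sharp hx F hF,
    fun x hx D b s t h => vectors hx D b s t h,
    fun x hx m D b s t h => ?_, Pool.Agent.H340R2.LW.transcendental_pi_complex⟩
  · obtain ⟨UU, h1, h2, h3⟩ := structure_thm (k := ℚ) hx D V
    refine ⟨UU, h1, fun y => ?_, fun U hU => (h3 U hU).2.2⟩
    rw [related_iff]
    exact h2 y
  · classical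
    obtain ⟨HH, hHf, hHH, hHr⟩ := vectors hx (m * D) b s t h
    have hrel : ∀ c : odds b s → ℤ, RelatedOver m D x (combination c) →
        ∃ H ∈ HH, c ∈ H := by
      rintro c ⟨F, hF, hFm, P, hP0, hPd, hP⟩
      obtain ⟨g, hg0, hgd, hg⟩ := exists_rat_relation F _ P hP0 hP
      exact (hHH c).1 ⟨g, hg0, hgd.trans (Nat.mul_le_mul hFm hPd), hg⟩
    refine ⟨hHf.toFinset.card, fun T => ?_⟩
    have hR : ∀ H ∈ HH, ∀ (r : ℕ) (v : Fin r → (odds b s → ℤ)), (∀ i, v i ∈ H) →
        LinearIndependent ℤ v → r ≤ (odds b s).card + 2 * (m * D) - t := by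
      intro H hH r v hv hli
      have := hHr H hH r v hv hli
      omega
    have hsub : {c : odds b s → ℤ | (∀ j, |c j| ≤ T) ∧ RelatedOver m D x (combination c)} ⊆
        ⋃ H ∈ hHf.toFinset, {c : odds b s → ℤ | c ∈ H ∧ ∀ j, |c j| ≤ T} := by
      rintro c ⟨hc, hr⟩
      obtain ⟨H, hH, hcH⟩ := hrel c hr
      simp only [Set.mem_iUnion]
      exact ⟨H, hHf.mem_toFinset.2 hH, hcH, hc⟩
    have hfin : (⋃ H ∈ hHf.toFinset, {c : odds b s → ℤ | c ∈ H ∧ ∀ j, |c j| ≤ T}).Finite :=
      hHf.toFinset.finite_toSet.biUnion fun H hH =>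
        (count_box H _ (hR H (hHf.mem_toFinset.1 hH)) T).1
    refine ⟨hfin.subset hsub, (Set.ncard_le_ncard hsub hfin).trans ?_⟩
    refine (Finset.set_ncard_biUnion_le _ _).trans ?_
    rw [← smul_eq_mul]
    exact Finset.sum_le_card_nsmul _ _ _ fun H hH =>
      (count_box H _ (hR H (hHf.mem_toFinset.1 hH)) T).2

end Pool.Agent.Results.MP_a89d6d_nt.PiAndCombinations
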