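import Pool.Agent.Q151.PZ2.Poly
import Pool.Agent.TH647.NR.Zeta
import Pool.Agent.TH647.NR.Zeta34

/-!
# `π` and zeta values at large arguments of comparable size: no relations of exponential height

Let `r_1, …, r_m ≥ 1` and `d` be fixed. For all large `n` and all distinct integers `s_i` with
`r_i n ≤ s_i ≤ (r_i + ε) n` the numbers `π, ζ(s_1), …, ζ(s_m)` satisfy no polynomial relation of
degree at most `d` whose integer coefficients are at most `C ^ n`; the value of the polynomial is at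
least `B ^ (-n)`. The same holds for polynomials in the `ζ(s_i)` with coefficients in
`ℤ + ℤ π ^ 2 + ℤ ζ(3)` and in `ℤ + ℤ ζ(3) + ℤ π ^ 4`.

Sources in the starting files: the estimate for combinations of Dirichlet series
`Pool/Agent/Y760/PZ/Vec.lean` (helper760), the transcendence measure of `π`
`Pool/Agent/TH456/TM/Inst.lean` (helper456), the measures for `1, π ^ 2, ζ(3)` and `1, ζ(3), π ^ 4` in
`Pool/Agent/TH647/NR/` (helper647).
-/

set_option autoImplicit false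

namespace Pool.Agent.Results.MP_a89d6d_nt.PiAndNearbyArguments

open Pool.Agent.Y760.PZ Pool.Agent.TH456.TM

/-- `ζ(s)`, `s ≥ 2` -/
noncomputable def zt (s : ℕ) : ℝ := ∑' k : ℕ, 1 / ((k : ℝ) + 1) ^ s

theorem result (m d : ℕ) (r : Fin m → ℕ) (hr : ∀ i, 1 ≤ r i) :
    ∃ ε B C : ℝ, 0 < ε ∧ 1 < B ∧ 1 < C ∧ ∃ n0 : ℕ, ∀ n : ℕ, n0 ≤ n → ∀ s : Fin m → ℕ,
      Function.Injective s → (∀ i, r i * n ≤ s i ∧ (s i : ℝ) ≤ (r i + ε) * n) →
      -- `π` and the zeta values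
      (∀ P : MvPolynomial (Fin (m + 1)) ℤ, P ≠ 0 → P.totalDegree ≤ d →
        (∀ e, |((P.coeff e : ℤ) : ℝ)| ≤ C ^ n) →
        1 / B ^ n < |MvPolynomial.aeval
          (Fin.cons Real.pi (fun j => zt (s j)) : Fin (m + 1) → ℝ) P|) ∧
      -- coefficients in `ℤ + ℤ π ^ 2 + ℤ ζ(3)` and in `ℤ + ℤ ζ(3) + ℤ π ^ 4`
      (∀ P Q R : MvPolynomial (Fin m) ℤ, ¬ (P = 0 ∧ Q = 0 ∧ R = 0) →
        P.totalDegree ≤ d → Q.totalDegree ≤ d → R.totalDegree ≤ d →
        (∀ e, |((P.coeff e : ℤ) : ℝ)| ≤ C ^ n) → (∀ e, |((Q.coeff e : ℤ) : ℝ)| ≤ C ^ n) →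
        (∀ e, |((R.coeff e : ℤ) : ℝ)| ≤ C ^ n) →
        1 / B ^ n < |MvPolynomial.aeval (fun j => zt (s j)) P +
          Real.pi ^ 2 * MvPolynomial.aeval (fun j => zt (s j)) Q +
          zt 3 * MvPolynomial.aeval (fun j => zt (s j)) R| ∧
        1 / B ^ n < |MvPolynomial.aeval (fun j => zt (s j)) P +
          zt 3 * MvPolynomial.aeval (fun j => zt (s j)) Q +
          Real.pi ^ 4 * MvPolynomial.aeval (fun j => zt (s j)) R|) := by
  obtain ⟨κ, hκ, c, hc, hm⟩ := Pool.Agent.TH647.NR.meas_pi_zeta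
  obtain ⟨c', hc', hm'⟩ := Pool.Agent.TH647.NR.meas_zeta_pi4
  obtain ⟨ε₁, B₁, C₁, hε₁, hB₁, hC₁, n₁, h₁⟩ :=
    Pool.Agent.Q151.PZ2.poly_part Real.pi measT_pi m d r hr
  obtain ⟨ε₂, B₂, C₂, hε₂, hB₂, hC₂, n₂, h₂⟩ := Pool.Agent.Q151.PZ2.lin_part
    (![1, Real.pi ^ 2, ∑' n : ℕ, 1 / ((n : ℝ) + 1) ^ 3] : Fin (2 + 1) → ℝ)
    ⟨κ, c, hκ.le, hc, fun q hq H hH hqH => hm q hq H hH hqH⟩ m d r hr
  obtain ⟨ε₃, B₃, C₃, hε₃, hB₃, hC₃, n₃, h₃⟩ := Pool.Agent.Q151.PZ2.lin_part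
    (![1, ∑' n : ℕ, 1 / ((n : ℝ) + 1) ^ 3, Real.pi ^ 4] : Fin (2 + 1) → ℝ)
    ⟨2400, c', by norm_num, hc', fun q hq H hH hqH => hm' q hq H hH hqH⟩ m d r hr
  refine ⟨min ε₁ (min ε₂ ε₃), max B₁ (max B₂ B₃), min C₁ (min C₂ C₃), ?_, ?_, ?_,
    max n₁ (max n₂ n₃), fun n hn s hs hsr => ?_⟩
  · exact lt_min hε₁ (lt_min hε₂ hε₃)
  · exact lt_of_lt_of_le hB₁ (le_max_left _ _)
  · exact lt_min hC₁ (lt_min hC₂ hC₃)
  have hn₁ : n₁ ≤ n := (le_max_left _ _).trans hn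
  have hn₂ : n₂ ≤ n := (le_max_left _ _).trans ((le_max_right _ _).trans hn)
  have hn₃ : n₃ ≤ n := (le_max_right _ _).trans ((le_max_right _ _).trans hn)
  have hstep : ∀ ε' : ℝ, min ε₁ (min ε₂ ε₃) ≤ ε' →
      ∀ i, r i * n ≤ s i ∧ (s i : ℝ) ≤ (r i + ε') * n := fun ε' hε' i =>
    ⟨(hsr i).1, (hsr i).2.trans (mul_le_mul_of_nonneg_right (by linarith) (Nat.cast_nonneg n))⟩
  have hCle : ∀ C' : ℝ, min C₁ (min C₂ C₃) ≤ C' → (min C₁ (min C₂ C₃)) ^ n ≤ C' ^ n :=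
    fun C' hC' => pow_le_pow_left₀ (lt_min hC₁ (lt_min hC₂ hC₃) |>.le.trans' zero_le_one) hC' n
  have hBle : ∀ B' : ℝ, 1 < B' → B' ≤ max B₁ (max B₂ B₃) →
      1 / (max B₁ (max B₂ B₃)) ^ n ≤ (B' ^ n)⁻¹ := fun B' hB' hle => by
    rw [one_div]
    exact inv_anti₀ (pow_pos (by linarith) n) (pow_le_pow_left₀ (by linarith) hle n)
  refine ⟨fun P hP hPd hPC => ?_, fun P Q R hPQR hP hQ hR hPC hQC hRC => ⟨?_, ?_⟩⟩
  · refine lt_of_le_of_lt (hBle B₁ hB₁ (le_max_left _ _)) ?_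
    exact h₁ n hn₁ s hs (hstep ε₁ (min_le_left _ _)) P hP hPd
      (fun e => (hPC e).trans (hCle C₁ (min_le_left _ _)))
  · refine lt_of_le_of_lt (hBle B₂ hB₂ ((le_max_left _ _).trans (le_max_right _ _))) ?_
    have h := h₂ n hn₂ s hs (hstep ε₂ ((min_le_right _ _).trans (min_le_left _ _))) ![P, Q, R]
      (fun h0 => hPQR ⟨congrFun h0 0, congrFun h0 1, congrFun h0 2⟩)
      (by intro i; fin_cases i <;> assumption)
      (by
        intro i e
        have hc2 := hCle C₂ ((min_le_right _ _).trans (min_le_left _ _))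
        fin_cases i
        · exact (hPC e).trans hc2
        · exact (hQC e).trans hc2
        · exact (hRC e).trans hc2)
    rw [Fin.sum_univ_three] at h
    simp only [Matrix.cons_val_zero, Matrix.cons_val_one, Matrix.cons_val, one_mul] at h
    exact h
  · refine lt_of_le_of_lt (hBle B₃ hB₃ ((le_max_right _ _).trans (le_max_right _ _))) ?_
    have h := h₃ n hn₃ s hs (hstep ε₃ ((min_le_right _ _).trans (min_le_right _ _))) ![P, Q, R]
      (fun h0 => hPQR ⟨congrFun h0 0, congrFun h0 1, congrFun h0 2⟩)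
      (by intro i; fin_cases i <;> assumption)
      (by
        intro i e
        have hc2 := hCle C₃ ((min_le_right _ _).trans (min_le_right _ _))
        fin_cases i
        · exact (hPC e).trans hc2
        · exact (hQC e).trans hc2
        · exact (hRC e).trans hc2)
    rw [Fin.sum_univ_three] at h
    simp only [Matrix.cons_val_zero, Matrix.cons_val_one, Matrix.cons_val, one_mul] at h
    exact h

end Pool.Agent.Results.MP_a89d6d_nt.PiAndNearbyArguments
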